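import Pool.Agent.Helper53.KC.Goals2

/-! Packet KC-SYMC (MP_8c9d5b_co): the number of the symmetric families. -/

namespace Pool.Agent.Helper79.KC

open Finset Pool.Agent.Helper53.KC

variable {n : ℕ}

theorem act_one (X : Finset (Fin n)) : act 1 X = X := by
  unfold act
  exact map_refl

theorem act_mul (σ τ : Equiv.Perm (Fin n)) (X : Finset (Fin n)) :
    act (σ * τ) X = act σ (act τ X) := by
  unfold act
  rw [map_map]
  rfl

theorem act_card (σ : Equiv.Perm (Fin n)) (X : Finset (Fin n)) : (act σ X).card = X.card := by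
  unfold act
  rw [card_map]

theorem act_inj (σ : Equiv.Perm (Fin n)) {X Y : Finset (Fin n)} (h : act σ X = act σ Y) :
    X = Y := by
  unfold act at h
  exact map_injective _ h

theorem mem_V {r : ℕ} {X : Finset (Fin n)} : X ∈ V n r ↔ X.card = r := by
  unfold V
  rw [mem_powersetCard]
  exact ⟨fun h => h.2, fun h => ⟨subset_univ _, h⟩⟩

theorem not_adj_self (X : Finset (Fin n)) : ¬ adj X X := by
  unfold adj
  rw [inter_self]
  omega

theorem adj_symm {X Y : Finset (Fin n)} (h : adj X Y) : adj Y X := by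
  unfold adj at h ⊢
  rw [inter_comm Y X]
  omega

theorem act_pow_succ (σ : Equiv.Perm (Fin n)) (i : ℕ) (X : Finset (Fin n)) :
    act (σ ^ (i + 1)) X = act σ (act (σ ^ i) X) := by
  rw [pow_succ', act_mul]

/-- the orbit relation -/
def orel (σ : Equiv.Perm (Fin n)) : Setoid (Finset (Fin n)) where
  r X Y := ∃ i : ℕ, Y = act (σ ^ i) X
  iseqv := by
    refine ⟨fun X => ⟨0, by rw [pow_zero, act_one]⟩, ?_, ?_⟩
    · rintro X Y ⟨i, rfl⟩
      refine ⟨i * (orderOf σ - 1), ?_⟩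
      rw [← act_mul, ← pow_add]
      have h1 : i * (orderOf σ - 1) + i = orderOf σ * i := by
        have h2 : 0 < orderOf σ := orderOf_pos σ
        obtain ⟨k, hk⟩ : ∃ k, orderOf σ = k + 1 := ⟨orderOf σ - 1, by omega⟩
        rw [hk, Nat.add_sub_cancel]
        ring
      rw [h1, pow_mul, pow_orderOf_eq_one, one_pow, act_one]
    · rintro X Y Z ⟨i, rfl⟩ ⟨j, rfl⟩
      exact ⟨j + i, by rw [pow_add, act_mul]⟩

/-- the representative of the orbit -/
noncomputable def rep (σ : Equiv.Perm (Fin n)) (X : Finset (Fin n)) : Finset (Fin n) :=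
  (Quotient.mk (orel σ) X).out

theorem rep_rel (σ : Equiv.Perm (Fin n)) (X : Finset (Fin n)) :
    ∃ i : ℕ, X = act (σ ^ i) (rep σ X) :=
  Quotient.mk_out (s := orel σ) X

theorem rep_rel' (σ : Equiv.Perm (Fin n)) (X : Finset (Fin n)) :
    ∃ i : ℕ, rep σ X = act (σ ^ i) X :=
  (orel σ).symm (Quotient.mk_out (s := orel σ) X)

theorem rep_eq {σ : Equiv.Perm (Fin n)} {X Y : Finset (Fin n)} (h : ∃ i : ℕ, Y = act (σ ^ i) X) :
    rep σ Y = rep σ X := by
  unfold rep
  have : Quotient.mk (orel σ) X = Quotient.mk (orel σ) Y := Quotient.sound h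
  rw [this]

theorem rep_rep (σ : Equiv.Perm (Fin n)) (X : Finset (Fin n)) : rep σ (rep σ X) = rep σ X :=
  rep_eq (rep_rel' σ X)

theorem rep_act (σ : Equiv.Perm (Fin n)) (X : Finset (Fin n)) : rep σ (act σ X) = rep σ X :=
  rep_eq ⟨1, by rw [pow_one]⟩

theorem fix_pow {σ : Equiv.Perm (Fin n)} {X : Finset (Fin n)} (h : act σ X = X) (i : ℕ) :
    act (σ ^ i) X = X := by
  induction i with
  | zero => rw [pow_zero, act_one]
  | succ i ih => rw [act_pow_succ, ih, h]

theorem fix_of_pow {σ : Equiv.Perm (Fin n)} {X : Finset (Fin n)} {i : ℕ}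
    (h : act σ (act (σ ^ i) X) = act (σ ^ i) X) : act σ X = X := by
  apply act_inj (σ ^ i)
  rw [← act_mul, ← pow_succ, act_pow_succ, h]

theorem fix_rep {σ : Equiv.Perm (Fin n)} {X : Finset (Fin n)} :
    act σ (rep σ X) = rep σ X ↔ act σ X = X := by
  constructor
  · intro h
    obtain ⟨i, hi⟩ := rep_rel' σ X
    rw [hi] at h
    exact fix_of_pow h
  · intro h
    obtain ⟨i, hi⟩ := rep_rel' σ X
    rw [hi, fix_pow h i, h]

theorem mem_pow {σ : Equiv.Perm (Fin n)} {S : Finset (Finset (Fin n))}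
    (hS : ∀ X ∈ S, act σ X ∈ S) {X : Finset (Fin n)} (hX : X ∈ S) (i : ℕ) :
    act (σ ^ i) X ∈ S := by
  induction i with
  | zero => rwa [pow_zero, act_one]
  | succ i ih =>
    rw [act_pow_succ]
    exact hS _ ih

open Classical in
/-- the fixed members -/
noncomputable def Fx (σ : Equiv.Perm (Fin n)) (S : Finset (Finset (Fin n))) :
    Finset (Finset (Fin n)) := S.filter fun X => act σ X = X

open Classical in
/-- the representatives of the moved members -/
noncomputable def Rs (σ : Equiv.Perm (Fin n)) (S : Finset (Finset (Fin n))) :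
    Finset (Finset (Fin n)) := (S.filter fun X => act σ X ≠ X).image (rep σ)

theorem mem_Fx {σ : Equiv.Perm (Fin n)} {S : Finset (Finset (Fin n))} {X : Finset (Fin n)} :
    X ∈ Fx σ S ↔ X ∈ S ∧ act σ X = X := by
  unfold Fx
  rw [mem_filter]

theorem mem_Rs {σ : Equiv.Perm (Fin n)} {S : Finset (Finset (Fin n))}
    (hS : ∀ X ∈ S, act σ X ∈ S) {X : Finset (Fin n)} :
    X ∈ Rs σ S ↔ X ∈ S ∧ act σ X ≠ X ∧ rep σ X = X := by
  unfold Rs
  rw [mem_image]
  constructor
  · rintro ⟨Y, hY, rfl⟩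
    obtain ⟨hY1, hY2⟩ := mem_filter.1 hY
    refine ⟨?_, fun h => hY2 (fix_rep.1 h), rep_rep σ Y⟩
    obtain ⟨i, hi⟩ := rep_rel' σ Y
    rw [hi]
    exact mem_pow hS hY1 i
  · rintro ⟨h1, h2, h3⟩
    exact ⟨X, mem_filter.2 ⟨h1, h2⟩, h3⟩

theorem sub_of {σ : Equiv.Perm (Fin n)} {S S' : Finset (Finset (Fin n))}
    (hS' : ∀ X ∈ S', act σ X ∈ S')
    (hF : Fx σ S = Fx σ S') (hR : Rs σ S = Rs σ S') : S ⊆ S' := by
  classical
  intro X hX
  by_cases hf : act σ X = X
  · have h1 : X ∈ Fx σ S := mem_Fx.2 ⟨hX, hf⟩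
    rw [hF] at h1
    exact (mem_Fx.1 h1).1
  · have h1 : rep σ X ∈ Rs σ S := by
      unfold Rs
      exact mem_image.2 ⟨X, mem_filter.2 ⟨hX, hf⟩, rfl⟩
    rw [hR] at h1
    have h2 := ((mem_Rs hS').1 h1).1
    obtain ⟨i, hi⟩ := rep_rel σ X
    rw [hi]
    exact mem_pow hS' h2 i

theorem eq_of {σ : Equiv.Perm (Fin n)} {S S' : Finset (Finset (Fin n))}
    (hS : ∀ X ∈ S, act σ X ∈ S) (hS' : ∀ X ∈ S', act σ X ∈ S')
    (hF : Fx σ S = Fx σ S') (hR : Rs σ S = Rs σ S') : S = S' :=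
  (sub_of hS' hF hR).antisymm (sub_of hS hF.symm hR.symm)

open Classical in
/-- the number of the sets of size at most `τ` -/
theorem card_small (A : Finset (Finset (Fin n))) (τ : ℕ) :
    (A.powerset.filter fun T => T.card ≤ τ).card ≤ bl A.card τ := by
  have h1 : (A.powerset.filter fun T => T.card ≤ τ) ⊆
      (range (τ + 1)).biUnion fun j => powersetCard j A := by
    intro T hT
    obtain ⟨h2, h3⟩ := mem_filter.1 hT
    refine mem_biUnion.2 ⟨T.card, mem_range.2 (by omega), ?_⟩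
    exact mem_powersetCard.2 ⟨mem_powerset.1 h2, rfl⟩
  calc (A.powerset.filter fun T => T.card ≤ τ).card ≤
      ((range (τ + 1)).biUnion fun j => powersetCard j A).card := card_le_card h1
    _ ≤ ∑ j ∈ range (τ + 1), (powersetCard j A).card := card_biUnion_le
    _ = bl A.card τ := by
      unfold bl
      exact sum_congr rfl fun j _ => card_powersetCard j A

theorem card_V (n r : ℕ) : (V n r).card = n.choose r := by
  unfold V
  rw [card_powersetCard, card_univ, Fintype.card_fin]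

open Classical in
/-- the stable set of `S` and `T` -/
noncomputable def Ph (σ : Equiv.Perm (Fin n)) (S T : Finset (Finset (Fin n))) :
    Finset (Finset (Fin n)) := Fx σ S ∪ (T ∪ (Rs σ S \ T).image (act σ))

theorem mem_Ph {σ : Equiv.Perm (Fin n)} {S T : Finset (Finset (Fin n))} {X : Finset (Fin n)} :
    X ∈ Ph σ S T ↔ X ∈ Fx σ S ∨ X ∈ T ∨ ∃ Y ∈ Rs σ S, Y ∉ T ∧ act σ Y = X := by
  unfold Ph
  simp only [mem_union, mem_image, mem_sdiff, and_assoc]

theorem Ph_sub {σ : Equiv.Perm (Fin n)} {S T : Finset (Finset (Fin n))}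
    (hS : ∀ X ∈ S, act σ X ∈ S) (hT : T ⊆ Rs σ S) : Ph σ S T ⊆ S := by
  intro X hX
  rcases mem_Ph.1 hX with h | h | ⟨Y, hY, _, rfl⟩
  · exact (mem_Fx.1 h).1
  · exact ((mem_Rs hS).1 (hT h)).1
  · exact hS _ ((mem_Rs hS).1 hY).1

/-- the moved members of `Ph` are determined by their representatives -/
theorem Ph_rep {σ : Equiv.Perm (Fin n)} {S T : Finset (Finset (Fin n))}
    (hS : ∀ X ∈ S, act σ X ∈ S) (hT : T ⊆ Rs σ S) {X : Finset (Fin n)} (hX : X ∈ Ph σ S T)
    (hm : act σ X ≠ X) :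
    rep σ X ∈ Rs σ S ∧ ((rep σ X ∈ T ∧ X = rep σ X) ∨ (rep σ X ∉ T ∧ X = act σ (rep σ X))) := by
  rcases mem_Ph.1 hX with h | h | ⟨Y, hY, hYT, rfl⟩
  · exact absurd (mem_Fx.1 h).2 hm
  · have h1 := (mem_Rs hS).1 (hT h)
    rw [h1.2.2]
    exact ⟨hT h, Or.inl ⟨h, rfl⟩⟩
  · have h1 := (mem_Rs hS).1 hY
    rw [rep_act, h1.2.2]
    exact ⟨hY, Or.inr ⟨hYT, rfl⟩⟩

theorem Ph_stb {σ : Equiv.Perm (Fin n)} {S T : Finset (Finset (Fin n))}
    (hS : Sym σ S) (hT : T ⊆ Rs σ S) : Stb (Ph σ S T) := by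
  intro X hX Y hY hadj
  obtain ⟨i, hi⟩ := hS.2 X (Ph_sub hS.1 hT hX) Y (Ph_sub hS.1 hT hY) hadj
  by_cases hfX : act σ X = X
  · rw [fix_pow hfX i] at hi
    rw [hi] at hadj
    exact not_adj_self _ hadj
  · have hfY : act σ Y ≠ Y := by
      intro h
      rw [hi] at h
      exact hfX (fix_of_pow h)
    have hr : rep σ Y = rep σ X := rep_eq ⟨i, hi⟩
    obtain ⟨_, h1⟩ := Ph_rep hS.1 hT hX hfX
    obtain ⟨_, h2⟩ := Ph_rep hS.1 hT hY hfY
    rw [hr] at h2
    have hXY : X = Y := by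
      rcases h1 with ⟨a1, a2⟩ | ⟨a1, a2⟩
      · rcases h2 with ⟨b1, b2⟩ | ⟨b1, b2⟩
        · rw [a2, b2]
        · exact absurd a1 b1
      · rcases h2 with ⟨b1, b2⟩ | ⟨b1, b2⟩
        · exact absurd b1 a1
        · rw [a2, b2]
    rw [hXY] at hadj
    exact not_adj_self _ hadj

theorem Fx_Ph {σ : Equiv.Perm (Fin n)} {S T : Finset (Finset (Fin n))}
    (hS : ∀ X ∈ S, act σ X ∈ S) (hT : T ⊆ Rs σ S) : Fx σ (Ph σ S T) = Fx σ S := by
  ext X
  constructor
  · intro h
    obtain ⟨h1, h2⟩ := mem_Fx.1 h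
    exact mem_Fx.2 ⟨Ph_sub hS hT h1, h2⟩
  · intro h
    exact mem_Fx.2 ⟨mem_Ph.2 (Or.inl h), (mem_Fx.1 h).2⟩

theorem Rs_Ph {σ : Equiv.Perm (Fin n)} {S T : Finset (Finset (Fin n))}
    (hS : ∀ X ∈ S, act σ X ∈ S) (hT : T ⊆ Rs σ S) : Rs σ (Ph σ S T) = Rs σ S := by
  classical
  ext X
  constructor
  · intro h
    unfold Rs at h
    obtain ⟨Y, hY, rfl⟩ := mem_image.1 h
    obtain ⟨h1, h2⟩ := mem_filter.1 hY
    exact (Ph_rep hS hT h1 h2).1
  · intro h
    have hX := (mem_Rs hS).1 h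
    unfold Rs
    by_cases hXT : X ∈ T
    · exact mem_image.2 ⟨X, mem_filter.2 ⟨mem_Ph.2 (Or.inr (Or.inl hXT)), hX.2.1⟩, hX.2.2⟩
    · refine mem_image.2 ⟨act σ X, mem_filter.2
        ⟨mem_Ph.2 (Or.inr (Or.inr ⟨X, h, hXT, rfl⟩)), fun h0 => hX.2.1 (act_inj σ h0)⟩, ?_⟩
      rw [rep_act, hX.2.2]

theorem mem_T_iff {σ : Equiv.Perm (Fin n)} {S T : Finset (Finset (Fin n))}
    (hS : ∀ X ∈ S, act σ X ∈ S) (hT : T ⊆ Rs σ S) (X : Finset (Fin n)) :
    X ∈ T ↔ X ∈ Ph σ S T ∧ act σ X ≠ X ∧ rep σ X = X := by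
  constructor
  · intro h
    have h1 := (mem_Rs hS).1 (hT h)
    exact ⟨mem_Ph.2 (Or.inr (Or.inl h)), h1.2.1, h1.2.2⟩
  · rintro ⟨h1, h2, h3⟩
    obtain ⟨_, h4⟩ := Ph_rep hS hT h1 h2
    rcases h4 with ⟨a1, _⟩ | ⟨_, a2⟩
    · rwa [h3] at a1
    · rw [h3] at a2
      exact absurd a2.symm h2

theorem symc : SymcStmt := by
  classical
  intro n r τ σ
  set A := ((V n r).powerset.filter (Sym σ)).filter fun S => (Rs σ S).card ≤ τ with hA
  set B := ((V n r).powerset.filter (Sym σ)).filter fun S => ¬ (Rs σ S).card ≤ τ with hB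
  have hAB : isym n r σ = A.card + B.card := by
    unfold isym
    exact (card_filter_add_card_filter_not _).symm
  have hAle : A.card ≤ istab n r (Mv r σ) * bl (n.choose r) τ := by
    have h1 : A.card ≤ ((((V n r) \ (Mv r σ)).powerset.filter Stb) ×ˢ
        ((V n r).powerset.filter fun T => T.card ≤ τ)).card := by
      refine card_le_card_of_injOn (fun S => (Fx σ S, Rs σ S)) ?_ ?_
      · intro S hS
        obtain ⟨h2, h3⟩ := mem_filter.1 (mem_coe.1 hS)
        obtain ⟨h4, h5⟩ := mem_filter.1 h2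
        have h6 := mem_powerset.1 h4
        refine mem_coe.2 (mem_product.2 ⟨mem_filter.2 ⟨mem_powerset.2 ?_, ?_⟩,
          mem_filter.2 ⟨mem_powerset.2 ?_, h3⟩⟩)
        · intro X hX
          obtain ⟨a, b⟩ := mem_Fx.1 hX
          refine mem_sdiff.2 ⟨h6 a, fun hc => ?_⟩
          unfold Mv at hc
          exact (mem_filter.1 hc).2 b
        · intro X hX Y hY hadj
          obtain ⟨a, b⟩ := mem_Fx.1 hX
          obtain ⟨c, d⟩ := mem_Fx.1 hY
          obtain ⟨i, hi⟩ := h5.2 X a Y c hadj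
          rw [fix_pow b i] at hi
          rw [hi] at hadj
          exact not_adj_self _ hadj
        · intro X hX
          exact h6 ((mem_Rs h5.1).1 hX).1
      · intro S hS S' hS' heq
        have h2 := (mem_filter.1 (mem_filter.1 (mem_coe.1 hS)).1).2
        have h3 := (mem_filter.1 (mem_filter.1 (mem_coe.1 hS')).1).2
        have h4 := congrArg Prod.fst heq
        have h5 := congrArg Prod.snd heq
        exact eq_of h2.1 h3.1 h4 h5
    rw [card_product] at h1
    refine h1.trans ?_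
    have h2 := card_small (V n r) τ
    rw [card_V] at h2
    have h3 : istab n r (Mv r σ) = ((((V n r) \ (Mv r σ)).powerset.filter Stb)).card := by
      unfold istab
      congr 1
    rw [h3]
    exact Nat.mul_le_mul_left _ h2
  have hBle : 2 ^ τ * B.card ≤ istab n r ∅ := by
    have h1 : (B.sigma fun S => (Rs σ S).powerset).card ≤
        (((V n r) \ ∅).powerset.filter Stb).card := by
      refine card_le_card_of_injOn (fun p => Ph σ p.1 p.2) ?_ ?_
      · rintro ⟨S, T⟩ hp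
        obtain ⟨h2, h3⟩ := mem_sigma.1 (mem_coe.1 hp)
        have h4 := mem_filter.1 (mem_filter.1 h2).1
        have h5 := mem_powerset.1 h4.1
        have h6 := mem_powerset.1 h3
        refine mem_coe.2 (mem_filter.2 ⟨mem_powerset.2 ?_, Ph_stb h4.2 h6⟩)
        rw [sdiff_empty]
        exact (Ph_sub h4.2.1 h6).trans h5
      · rintro ⟨S, T⟩ hp ⟨S', T'⟩ hp' heq
        obtain ⟨h2, h3⟩ := mem_sigma.1 (mem_coe.1 hp)
        obtain ⟨h2', h3'⟩ := mem_sigma.1 (mem_coe.1 hp')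
        have h4 := (mem_filter.1 (mem_filter.1 h2).1).2
        have h4' := (mem_filter.1 (mem_filter.1 h2').1).2
        have h6 := mem_powerset.1 h3
        have h6' := mem_powerset.1 h3'
        have heq' : Ph σ S T = Ph σ S' T' := heq
        have hSS : S = S' := by
          apply eq_of h4.1 h4'.1
          · rw [← Fx_Ph h4.1 h6, ← Fx_Ph h4'.1 h6', heq']
          · rw [← Rs_Ph h4.1 h6, ← Rs_Ph h4'.1 h6', heq']
        have hTT : T = T' := by
          ext X
          rw [mem_T_iff h4.1 h6, mem_T_iff h4'.1 h6', heq']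
        subst hSS
        subst hTT
        rfl
    rw [card_sigma] at h1
    have h2 : istab n r ∅ = (((V n r) \ ∅).powerset.filter Stb).card := by
      unfold istab
      congr 1
    rw [h2]
    refine le_trans ?_ h1
    calc 2 ^ τ * B.card = ∑ _S ∈ B, 2 ^ τ := by rw [sum_const, smul_eq_mul, mul_comm]
      _ ≤ ∑ S ∈ B, (Rs σ S).powerset.card := by
        refine sum_le_sum fun S hS => ?_
        rw [card_powerset]
        have h3 := (mem_filter.1 hS).2
        exact Nat.pow_le_pow_right (by norm_num) (by omega)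
  rw [hAB, Nat.mul_add]
  exact Nat.add_le_add (Nat.mul_le_mul_left _ hAle) hBle

end Pool.Agent.Helper79.KC
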