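import Pool.Agent.Helper53.KC.Goals3
import Pool.Agent.Helper9.KC.Av

/-! The average number of the available vertices, localized version (packet KC-AV3). -/

set_option autoImplicit false

namespace Pool.Agent.Helper79.KC

open Finset
open Pool.Agent.Helper53.KC
open Pool.Agent.Helper9.KC

variable {n : ℕ}

lemma BB_sub_Ly {r : ℕ} {C X : Finset (Fin n)} (hX : X ∈ DC r C) : BB C X ⊆ Ly r C := by
  classical
  intro v hv
  obtain ⟨e, he, f, hf, rfl⟩ := mem_BB.1 hv
  obtain ⟨h1, h2, -, -⟩ := sw_facts hX he hf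
  unfold Ly V
  rw [mem_filter, mem_powersetCard]
  refine ⟨⟨subset_univ _, h1⟩, ?_⟩
  have h3 := card_sdiff_add_card_inter C (sw X e f)
  rw [h2, card_singleton, inter_comm] at h3
  omega

/-- the entropy sum, grouped by the traces outside of the layer -/
lemma group_bound (hENT : EntStmt) {α ι : Type} [DecidableEq α] (I : Finset (Finset α))
    (J : Finset ι) (B : ι → Finset α) (L : Finset α) (t : ℕ) (m : ℝ)
    (hB : ∀ j ∈ J, B j ⊆ L) (ht : ∀ v, (J.filter fun j => v ∈ B j).card ≤ t)
    (hm : ∀ T, (I.filter fun S => S \ L = T).Nonempty →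
      Real.logb 2 ((I.filter fun S => S \ L = T).card : ℝ) ≤ m) :
    ∑ j ∈ J, ∑ S ∈ I, Real.logb 2 ((I.filter fun S' => S' \ B j = S \ B j).card : ℝ) ≤
      t * (I.card * m) := by
  classical
  set K : Finset (Finset α) := I.image fun S => S \ L with hK
  have hmaps : ∀ S ∈ I, S \ L ∈ K := fun S hS => mem_image_of_mem _ hS
  -- the count in a group
  have h1 : ∀ T ∈ K, ∑ j ∈ J, ∑ S ∈ I.filter (fun S => S \ L = T),
      Real.logb 2 ((I.filter fun S' => S' \ B j = S \ B j).card : ℝ) ≤
        t * ((I.filter fun S => S \ L = T).card * m) := by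
    intro T hT
    obtain ⟨S₀, hS₀, hST⟩ := mem_image.1 hT
    have hne : (I.filter fun S => S \ L = T).Nonempty := ⟨S₀, mem_filter.2 ⟨hS₀, hST⟩⟩
    have h2 : ∀ j ∈ J, ∀ S ∈ I.filter (fun S => S \ L = T),
        (I.filter fun S' => S' \ B j = S \ B j) =
          ((I.filter fun S => S \ L = T).filter fun S' => S' \ B j = S \ B j) := by
      intro j hj S hS
      have hSL := (mem_filter.1 hS).2
      ext S'
      simp only [mem_filter]
      constructor
      · rintro ⟨ha, hb⟩
        refine ⟨⟨ha, ?_⟩, hb⟩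
        have e : ∀ U : Finset α, U \ L = (U \ B j) \ L := by
          intro U
          ext x
          simp only [mem_sdiff]
          constructor
          · rintro ⟨h3, h4⟩
            exact ⟨⟨h3, fun h5 => h4 (hB j hj h5)⟩, h4⟩
          · rintro ⟨⟨h3, -⟩, h4⟩
            exact ⟨h3, h4⟩
        rw [e S', hb, ← e S, hSL]
      · rintro ⟨⟨ha, -⟩, hb⟩
        exact ⟨ha, hb⟩
    have h3 := hENT α ι (I.filter fun S => S \ L = T) J B t hne ht
    have h4 : ∑ j ∈ J, ∑ S ∈ I.filter (fun S => S \ L = T),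
        Real.logb 2 ((I.filter fun S' => S' \ B j = S \ B j).card : ℝ) =
        ∑ j ∈ J, ∑ S ∈ I.filter (fun S => S \ L = T),
        Real.logb 2 (((I.filter fun S => S \ L = T).filter
          fun S' => S' \ B j = S \ B j).card : ℝ) := by
      apply sum_congr rfl
      intro j hj
      apply sum_congr rfl
      intro S hS
      rw [h2 j hj S hS]
    rw [h4]
    refine h3.trans ?_
    rw [mul_assoc]
    have := hm T hne
    gcongr
  -- summation over the groups
  have h5 : ∑ j ∈ J, ∑ S ∈ I, Real.logb 2 ((I.filter fun S' => S' \ B j = S \ B j).card : ℝ) =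
      ∑ T ∈ K, ∑ j ∈ J, ∑ S ∈ I.filter (fun S => S \ L = T),
        Real.logb 2 ((I.filter fun S' => S' \ B j = S \ B j).card : ℝ) := by
    rw [sum_comm (s := K)]
    apply sum_congr rfl
    intro j _
    exact (sum_fiberwise_of_maps_to hmaps _).symm
  rw [h5]
  refine (sum_le_sum h1).trans ?_
  rw [← mul_sum, ← sum_mul]
  have h6 : (∑ T ∈ K, ((I.filter fun S => S \ L = T).card : ℝ)) = I.card := by
    rw [← Nat.cast_sum, ← card_eq_sum_card_fiberwise hmaps]
  rw [h6]

theorem av3 (hENT : EntStmt) (hLAY : LayStmt) : Av3Stmt := by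
  classical
  intro n r C b hc1 hcr hrn hne hb
  have hlay := hLAY n r C hc1 hcr hrn
  set N : ℕ := istab (n - C.card) (r + 1 - C.card) ∅ with hN
  unfold istab
  set I := ((V n r) \ (DC r C)).powerset.filter Stb with hI
  have hdown : ∀ X, ∀ S ∈ I, S \ BB C X ∈ I := by
    intro X S hS
    rw [hI, mem_filter, mem_powerset] at hS ⊢
    exact ⟨sdiff_subset.trans hS.1, fun Y hY Z hZ =>
      hS.2 Y (mem_sdiff.1 hY).1 Z (mem_sdiff.1 hZ).1⟩
  -- the groups are small
  have hgr : ∀ T, (I.filter fun S => S \ Ly r C = T).Nonempty →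
      Real.logb 2 ((I.filter fun S => S \ Ly r C = T).card : ℝ) ≤ C.card * Real.logb 2 N := by
    intro T hT
    have hinj : (I.filter fun S => S \ Ly r C = T).card ≤
        ((Ly r C).powerset.filter Stb).card := by
      apply card_le_card_of_injOn (fun S => S ∩ Ly r C)
      · intro S hS
        rw [mem_coe, mem_filter, hI, mem_filter] at hS
        rw [mem_coe, mem_filter, mem_powerset]
        exact ⟨inter_subset_right, fun Y hY Z hZ =>
          hS.1.2 Y (mem_inter.1 hY).1 Z (mem_inter.1 hZ).1⟩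
      · intro S hS S' hS' he
        have h1 := (mem_filter.1 hS).2
        have h2 := (mem_filter.1 hS').2
        simp only at he
        rw [← sdiff_union_inter S (Ly r C), ← sdiff_union_inter S' (Ly r C), h1, h2, he]
    have hcard : (I.filter fun S => S \ Ly r C = T).card ≤ N ^ C.card := hinj.trans hlay
    have hpos : (0 : ℝ) < ((I.filter fun S => S \ Ly r C = T).card : ℝ) := by
      exact_mod_cast card_pos.2 hT
    calc Real.logb 2 ((I.filter fun S => S \ Ly r C = T).card : ℝ)
        ≤ Real.logb 2 ((N : ℝ) ^ C.card) := by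
          apply Real.logb_le_logb_of_le (by norm_num) hpos
          exact_mod_cast hcard
      _ = C.card * Real.logb 2 N := by rw [Real.logb_pow]
  have hent := group_bound hENT I (DC r C) (fun X => BB C X) (Ly r C) r
    (C.card * Real.logb 2 N) (fun X hX => BB_sub_Ly hX) (fun v => BB_count C v) hgr
  -- the sum of the inverses
  have h1 : ∀ X ∈ DC r C, ((I.filter fun S => Disjoint S (BB C X)).card : ℝ) =
      ∑ S ∈ I, (2 : ℝ) ^
        (-Real.logb 2 ((I.filter fun S' => S' \ BB C X = S \ BB C X).card : ℝ)) := by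
    intro X _
    rw [fib_count I (BB C X) (hdown X)]
    apply sum_congr rfl
    intro S hS
    have hmem : S ∈ I.filter fun S' => S' \ BB C X = S \ BB C X := mem_filter.2 ⟨hS, rfl⟩
    have hpos : (0 : ℝ) < ((I.filter fun S' => S' \ BB C X = S \ BB C X).card : ℝ) := by
      exact_mod_cast card_pos.2 ⟨S, hmem⟩
    rw [Real.rpow_neg (by norm_num), Real.rpow_logb (by norm_num) (by norm_num) hpos]
  have h2 : (I.card : ℝ) * (DC r C).card * (2 : ℝ) ^ (-b) ≤
      ∑ X ∈ DC r C, ((I.filter fun S => Disjoint S (BB C X)).card : ℝ) := by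
    rw [sum_congr rfl h1]
    have h3 : ∑ X ∈ DC r C, ∑ S ∈ I, (2 : ℝ) ^ (-b) * (1 - (Real.logb 2
        ((I.filter fun S' => S' \ BB C X = S \ BB C X).card : ℝ) - b) * Real.log 2) ≤
        ∑ X ∈ DC r C, ∑ S ∈ I, (2 : ℝ) ^
        (-Real.logb 2 ((I.filter fun S' => S' \ BB C X = S \ BB C X).card : ℝ)) :=
      sum_le_sum fun X _ => sum_le_sum fun S _ => tangent _ _
    refine le_trans ?_ h3
    have h4 : ∑ X ∈ DC r C, ∑ S ∈ I, (2 : ℝ) ^ (-b) * (1 - (Real.logb 2
        ((I.filter fun S' => S' \ BB C X = S \ BB C X).card : ℝ) - b) * Real.log 2) =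
        (2 : ℝ) ^ (-b) * ((DC r C).card * I.card * (1 + b * Real.log 2) -
          Real.log 2 * ∑ X ∈ DC r C, ∑ S ∈ I, Real.logb 2
            ((I.filter fun S' => S' \ BB C X = S \ BB C X).card : ℝ)) := by
      have e1 : ∀ X S : _, (2 : ℝ) ^ (-b) * (1 - (Real.logb 2
        ((I.filter fun S' => S' \ BB C X = S \ BB C X).card : ℝ) - b) * Real.log 2) =
        (2 : ℝ) ^ (-b) * (1 + b * Real.log 2) - (2 : ℝ) ^ (-b) * Real.log 2 * Real.logb 2
            ((I.filter fun S' => S' \ BB C X = S \ BB C X).card : ℝ) := by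
        intro X S; ring
      simp only [e1, sum_sub_distrib, sum_const, nsmul_eq_mul, ← mul_sum]
      ring
    rw [h4]
    have hl2 : 0 < Real.log 2 := Real.log_pos (by norm_num)
    have hIc : (0 : ℝ) ≤ I.card := Nat.cast_nonneg _
    have h5 : ∑ X ∈ DC r C, ∑ S ∈ I, Real.logb 2
            ((I.filter fun S' => S' \ BB C X = S \ BB C X).card : ℝ) ≤
          I.card * (b * (DC r C).card) := by
      refine hent.trans ?_
      have := mul_le_mul_of_nonneg_left hb hIc
      linarith
    have h6 := mul_le_mul_of_nonneg_left h5 hl2.le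
    have h7 : (I.card : ℝ) * (DC r C).card ≤ (DC r C).card * I.card * (1 + b * Real.log 2) -
          Real.log 2 * ∑ X ∈ DC r C, ∑ S ∈ I, Real.logb 2
            ((I.filter fun S' => S' \ BB C X = S \ BB C X).card : ℝ) := by
      linarith
    have h8 : (0 : ℝ) ≤ (2 : ℝ) ^ (-b) := by positivity
    have := mul_le_mul_of_nonneg_left h7 h8
    linarith
  refine h2.trans ?_
  -- double counting
  have e3 : ∑ X ∈ DC r C, ((I.filter fun S => Disjoint S (BB C X)).card : ℝ) =
      ∑ X ∈ DC r C, ∑ S ∈ I, if Disjoint S (BB C X) then (1 : ℝ) else 0 := by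
    apply sum_congr rfl
    intro X _
    rw [card_eq_sum_ones, Nat.cast_sum, sum_filter]
    simp
  have e4 : ∑ S ∈ I, (((DC r C).filter fun X => ∀ Y ∈ S, ¬ adj X Y).card : ℝ) =
      ∑ S ∈ I, ∑ X ∈ DC r C, if (∀ Y ∈ S, ¬ adj X Y) then (1 : ℝ) else 0 := by
    apply sum_congr rfl
    intro X _
    rw [card_eq_sum_ones, Nat.cast_sum, sum_filter]
    simp
  rw [e3, sum_comm]
  refine le_of_le_of_eq ?_ e4.symm
  apply sum_le_sum
  intro S hS
  apply sum_le_sum
  intro X hX
  by_cases hd : Disjoint S (BB C X)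
  · rw [if_pos hd, if_pos]
    intro Y hY hadj
    rw [hI, mem_filter, mem_powerset] at hS
    have hYV := mem_sdiff.1 (hS.1 hY)
    have hCY : ¬ C ⊆ Y := by
      intro hCY
      apply hYV.2
      rw [mem_DC]
      exact ⟨(mem_powersetCard.1 hYV.1).2, hCY⟩
    exact (disjoint_left.1 hd) hY (adj_BB hX hCY hadj)
  · rw [if_neg hd]
    split_ifs <;> norm_num

end Pool.Agent.Helper79.KC
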